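import Mathlib

namespace Pool.Agent.Helper554.LE

theorem arith_aux (n c s : ℝ) (hN : 2 ≤ n - c) (hsc : c < s) (hc2 : n + 9 ≤ 2 * c)
    (h5 : (2 * c - s - 2) * (n - c) < n * c - c * s)
    (h6 : (2 * c - s - 2) * (n - c) < n * c / 2 + s * (s + 1) / 2 - c * s) : False := by
  obtain ⟨N, rfl⟩ : ∃ N, n = c + N := ⟨n - c, by ring⟩
  obtain ⟨σ, rfl⟩ : ∃ σ, s = c + σ := ⟨s - c, by ring⟩
  have hN2 : 2 ≤ N := by linarith
  have hσ : 0 < σ := by linarith
  have hcN : N + 9 ≤ c := by linarith
  have hI1 : σ * (c - N) < 2 * N := by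
    linarith
  have hI2 : 0 < - c * N / 2 + σ * N + σ ^ 2 / 2 + σ / 2 + c / 2 + 2 * N := by
    linarith
  have hσ9 : 9 * σ < 2 * N := by
    have : σ * 9 ≤ σ * (c - N) := mul_le_mul_of_nonneg_left (by linarith) hσ.le
    linarith
  have e1 : σ ^ 2 ≤ (2 * N / 9) ^ 2 := by
    apply pow_le_pow_left₀ hσ.le; linarith
  have e2 : σ * N ≤ (2 * N / 9) * N := by
    apply mul_le_mul_of_nonneg_right _ (by linarith); linarith
  have e3 : (N + 9) * (N - 1) ≤ c * (N - 1) := mul_le_mul_of_nonneg_right hcN (by linarith)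
  have e4 : 0 ≤ (N - 2) * N := mul_nonneg (by linarith) (by linarith)
  linarith

/-- the arithmetic of the upper bound (dense range) -/
theorem arith (n a j s : ℕ) (hj : 1 ≤ j) (hjn : a + j + 1 ≤ n) (hs : s ≤ n) (m c S : ℝ)
    (hm : m = a * (a - 1) / 2 + a * (n - a) + j) (hc : n * c = 2 * m)
    (hd : (n : ℝ) ^ 2 + 9 * n ≤ 4 * m)
    (h1 : S ≤ s * n) (h2 : S ≤ m + s * (s + 1) / 2) (h3 : S ≤ 2 * m) :
    S - c * s ≤ max (a * (n - c)) (a * (n - c) + (a + 1 + j - c)) := by
  have hn0 : 0 < n := by omega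
  have hnR : (0 : ℝ) < n := by exact_mod_cast hn0
  have hjR : (1 : ℝ) ≤ j := by exact_mod_cast hj
  have haR : (0 : ℝ) ≤ a := Nat.cast_nonneg a
  have hjnR : (a : ℝ) + j + 1 ≤ n := by exact_mod_cast hjn
  have hsR : (s : ℝ) ≤ n := by exact_mod_cast hs
  -- m ≤ n (n-1)/2
  have hmle : m ≤ n * (n - 1) / 2 := by
    rw [hm]; nlinarith
  have hcle : c ≤ n - 1 := by
    have : (n : ℝ) * c ≤ n * (n - 1) := by rw [hc]; linarith
    exact le_of_mul_le_mul_left this hnR
  have hc2 : (n : ℝ) + 9 ≤ 2 * c := by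
    have : (n : ℝ) * (n + 9) ≤ n * (2 * c) := by nlinarith
    exact le_of_mul_le_mul_left this hnR
  have hA1nn : 0 ≤ a * (n - c) := mul_nonneg haR (by linarith)
  -- the value A2
  have hA2 : a * (n - c) + (a + 1 + j - c) = m + (a + 1) * (a + 2) / 2 - c * (a + 1) := by
    rw [hm]; ring
  rw [hA2]
  by_contra hcon
  rw [not_le] at hcon
  have hB1 : a * (n - c) < S - c * s := lt_of_le_of_lt (le_max_left _ _) hcon
  have hB2 : m + (a + 1) * (a + 2) / 2 - c * (a + 1) < S - c * s :=
    lt_of_le_of_lt (le_max_right _ _) hcon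
  -- s ≥ a + 2
  have hsa : a + 2 ≤ s := by
    by_contra hlt
    have : s ≤ a ∨ s = a + 1 := by omega
    rcases this with h | h
    · have hR : (s : ℝ) ≤ a := by exact_mod_cast h
      have : (s : ℝ) * (n - c) ≤ a * (n - c) := mul_le_mul_of_nonneg_right hR (by linarith)
      nlinarith
    · have hR : (s : ℝ) = a + 1 := by rw [h]; push_cast; ring
      rw [hR] at h2 hB2
      linarith
  have hsaR : (a : ℝ) + 2 ≤ s := by exact_mod_cast hsa
  -- I: s + a + 2 > 2 c
  have hI : 2 * c < s + a + 2 := by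
    have h : 0 < (s - a - 1 : ℝ) * (s + a + 2 - 2 * c) := by nlinarith
    have h' : (0 : ℝ) < s - a - 1 := by linarith
    have := (mul_pos_iff_of_pos_left h').mp h
    linarith
  have hsc : c < s := by linarith
  by_cases hN : n - c < 2
  · -- s = n - 1 or n
    have hs1 : n ≤ s + 1 := by
      have : (n : ℝ) < s + 2 := by linarith
      have h' : n < s + 2 := by exact_mod_cast this
      omega
    rcases Nat.lt_or_ge s n with hlt | hge
    · have hsn : (s : ℝ) = n - 1 := by
        have : s + 1 = n := by omega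
        rw [← this]; push_cast; ring
      have hSc : S - c * s ≤ c := by rw [hsn]; nlinarith
      -- f(n-2) ≥ c
      have hf : c ≤ m + (n - 2) * (n - 1) / 2 - c * (n - 2) := by
        have h4 : (4 : ℝ) ≤ n := by linarith
        have h8 := mul_nonneg (show (0:ℝ) ≤ n - 2 by linarith) (show (0 : ℝ) ≤ n - 1 - c by linarith)
        have h9 : m = n * c / 2 := by linarith
        rw [h9]
        linarith [h8, show (n - 2 : ℝ) * (n - 1 - c) = 2 * ((n * c / 2 + (n - 2) * (n - 1) / 2 - c * (n - 2)) - c) by ring]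
      have hf2 : m + (n - 2) * (n - 1) / 2 - c * (n - 2)
          ≤ m + (a + 1) * (a + 2) / 2 - c * (a + 1) := by
        have ha3 : a + 3 ≤ n := by omega
        rcases Nat.lt_or_ge (a + 3) n with h | h
        · have h4 : (a : ℝ) + 4 ≤ n := by exact_mod_cast h
          have h8 := mul_nonneg (show (0:ℝ) ≤ n - 3 - a by linarith) (show (0 : ℝ) ≤ 2 * c - n - a by linarith)
          linarith [h8, show (n - 3 - a : ℝ) * (2 * c - n - a) = 2 * ((m + (a + 1) * (a + 2) / 2 - c * (a + 1)) - (m + (n - 2) * (n - 1) / 2 - c * (n - 2))) by ring]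
        · have h7 : (n : ℝ) = a + 3 := by
            have : n = a + 3 := by omega
            rw [this]; push_cast; ring
          have e1 : (n : ℝ) - 2 = a + 1 := by linarith
          have e2 : (n : ℝ) - 1 = a + 2 := by linarith
          rw [e1, e2]
      linarith
    · have hsn : (s : ℝ) = n := by
        have : s = n := by omega
        rw [this]
      rw [hsn] at hB1
      nlinarith
  · rw [not_lt] at hN
    have ha' : 2 * c - s - 2 < a := by linarith
    have hlow : (2 * c - s - 2) * (n - c) < a * (n - c) := mul_lt_mul_of_pos_right ha' (by linarith)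
    have hm2 : m = n * c / 2 := by linarith
    have h5 : (2 * c - s - 2) * (n - c) < n * c - c * s := by linarith
    have h6 : (2 * c - s - 2) * (n - c) < n * c / 2 + s * (s + 1) / 2 - c * s := by
      rw [hm2] at h2
      linarith
    exact arith_aux n c s hN hsc hc2 h5 h6

end Pool.Agent.Helper554.LE
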