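import Mathlib

/-!
Definitions for MP_f5811f_co (maximum Laplacian energy of connected graphs with `n` vertices and
`m` edges).
-/

namespace Pool.Agent.Helper554.LE

/-- Laplacian energy of a graph with `n` vertices and `m = |E(G)|` edges: `∑ |λ - 2m/n|` over the
eigenvalues `λ` of the Laplacian matrix (the roots of its characteristic polynomial, with
multiplicity). -/
noncomputable def lapEnergy {n : ℕ} (G : SimpleGraph (Fin n)) [DecidableRel G.Adj] : ℝ :=
  ((G.lapMatrix ℝ).charpoly.roots.map
    (fun x => |x - 2 * (G.edgeFinset.card : ℝ) / (n : ℝ)|)).sum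

/-- The set of Laplacian energies of the connected graphs with `n` vertices and `m` edges;
`M(n,m)` is its largest element. -/
def Energies (n m : ℕ) : Set ℝ :=
  {e : ℝ | ∃ (G : SimpleGraph (Fin n)) (_ : DecidableRel G.Adj),
    G.Connected ∧ G.edgeFinset.card = m ∧ lapEnergy G = e}

/-- The number `min (s n, m + s(s+1)/2, 2m) - 2ms/n`. -/
noncomputable def Ub (n m s : ℕ) : ℝ :=
  min (min ((s : ℝ) * n) (m + s * (s + 1) / 2)) (2 * m) - 2 * m / n * s

end Pool.Agent.Helper554.LE
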