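import Mathlib

open Matrix Finset

namespace Pool.Agent.Helper554.LE

/-- `a` dominating vertices `0,…,a-1`, a star with centre `a` and leaves `a+1,…,a+j`, and the remaining
vertices adjacent to the dominating vertices only -/
def Gr (n a j : ℕ) : SimpleGraph (Fin n) where
  Adj u v := u ≠ v ∧ (min u.1 v.1 < a ∨ (min u.1 v.1 = a ∧ max u.1 v.1 ≤ a + j))
  symm := ⟨fun u v h => by
    rw [min_comm, max_comm]
    exact ⟨h.1.symm, h.2⟩⟩
  loopless := ⟨fun u h => h.1 rfl⟩

instance (n a j : ℕ) : DecidableRel (Gr n a j).Adj := fun u v =>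
  inferInstanceAs (Decidable (u ≠ v ∧ (min u.1 v.1 < a ∨ (min u.1 v.1 = a ∧ max u.1 v.1 ≤ a + j))))

section
variable (a j r : ℕ)

/-- piecewise constant function -/
def pw (g0 g1 g2 g3 : ℝ) : ℕ → ℝ := fun v =>
  if v < a then g0 else if v = a then g1 else if v ≤ a + j then g2 else g3

theorem pw0 {g0 g1 g2 g3 : ℝ} {v : ℕ} (h : v < a) : pw a j g0 g1 g2 g3 v = g0 := by
  simp [pw, h]
theorem pw1 {g0 g1 g2 g3 : ℝ} {v : ℕ} (h : v = a) : pw a j g0 g1 g2 g3 v = g1 := by
  simp [pw, h]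
theorem pw2 {g0 g1 g2 g3 : ℝ} {v : ℕ} (h : a < v) (h' : v ≤ a + j) :
    pw a j g0 g1 g2 g3 v = g2 := by
  have h1 : ¬ v < a := by omega
  have h2 : ¬ v = a := by omega
  simp [pw, h1, h2, h']
theorem pw3 {g0 g1 g2 g3 : ℝ} {v : ℕ} (h : a + j < v) : pw a j g0 g1 g2 g3 v = g3 := by
  have h1 : ¬ v < a := by omega
  have h2 : ¬ v = a := by omega
  have h3 : ¬ v ≤ a + j := by omega
  simp [pw, h1, h2, h3]

theorem blk (f : ℕ → ℝ) (c0 c1 c2 c3 : ℝ) (h0 : ∀ i < a, f i = c0) (h1 : f a = c1)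
    (h2 : ∀ i, a < i → i ≤ a + j → f i = c2) (h3 : ∀ i, a + j < i → f i = c3) :
    ∑ v : Fin (a + 1 + j + r), f v.1 = a * c0 + c1 + j * c2 + r * c3 := by
  rw [Fin.sum_univ_eq_sum_range f, Finset.sum_range_add, Finset.sum_range_add,
    Finset.sum_range_succ]
  have e0 : ∑ x ∈ range a, f x = a * c0 := by
    rw [Finset.sum_congr rfl fun i hi => h0 i (Finset.mem_range.mp hi)]
    simp
  have e2 : ∑ x ∈ range j, f (a + 1 + x) = j * c2 := by
    rw [Finset.sum_congr rfl fun i hi => h2 (a + 1 + i) (by omega)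
      (by have := Finset.mem_range.mp hi; omega)]
    simp
  have e3 : ∑ x ∈ range r, f (a + 1 + j + x) = r * c3 := by
    rw [Finset.sum_congr rfl fun i hi => h3 (a + 1 + j + i) (by omega)]
    simp
  rw [e0, e2, e3, h1]

theorem blk_pw (g0 g1 g2 g3 : ℝ) :
    ∑ v : Fin (a + 1 + j + r), pw a j g0 g1 g2 g3 v.1 = a * g0 + g1 + j * g2 + r * g3 :=
  blk a j r _ g0 g1 g2 g3 (fun _ h => pw0 a j h) (pw1 a j rfl) (fun _ h h' => pw2 a j h h')
    (fun _ h => pw3 a j h)

/-- the vector -/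
def vec (g0 g1 g2 g3 : ℝ) : Fin (a + 1 + j + r) → ℝ := fun v => pw a j g0 g1 g2 g3 v.1

theorem vec_dot (g0 g1 g2 g3 h0 h1 h2 h3 : ℝ) :
    vec a j r g0 g1 g2 g3 ⬝ᵥ vec a j r h0 h1 h2 h3
      = a * (g0 * h0) + g1 * h1 + j * (g2 * h2) + r * (g3 * h3) := by
  rw [dotProduct]
  have : ∀ v : Fin (a + 1 + j + r), vec a j r g0 g1 g2 g3 v * vec a j r h0 h1 h2 h3 v
      = pw a j (g0 * h0) (g1 * h1) (g2 * h2) (g3 * h3) v.1 := by
    intro v
    simp only [vec, pw]
    split_ifs <;> rfl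
  rw [Finset.sum_congr rfl fun v _ => this v, blk_pw]

/-- neighbour sums -/
theorem nsum (g0 g1 g2 g3 : ℝ) (u : Fin (a + 1 + j + r)) :
    ∑ v ∈ (Gr (a + 1 + j + r) a j).neighborFinset u, vec a j r g0 g1 g2 g3 v
      = pw a j (a * g0 + g1 + j * g2 + r * g3 - g0) (a * g0 + j * g2) (a * g0 + g1) (a * g0) u.1 := by
  classical
  have hN : (Gr (a + 1 + j + r) a j).neighborFinset u
      = Finset.univ.filter fun v => (Gr (a + 1 + j + r) a j).Adj u v := by
    ext v; simp
  rw [hN, Finset.sum_filter]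
  rcases lt_trichotomy u.1 a with hu | hu | hu
  · rw [pw0 a j hu]
    have h1 : ∀ v : Fin (a + 1 + j + r), (if (Gr (a + 1 + j + r) a j).Adj u v then
        vec a j r g0 g1 g2 g3 v else 0) = pw a j g0 g1 g2 g3 v.1 - if v = u then g0 else 0 := by
      intro v
      by_cases hv : v = u
      · subst hv
        simp [pw0 a j hu]
      · have : (Gr (a + 1 + j + r) a j).Adj u v := ⟨fun h => hv h.symm, Or.inl (by
          exact lt_of_le_of_lt (min_le_left _ _) hu)⟩
        simp [this, hv, vec]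
    rw [Finset.sum_congr rfl fun v _ => h1 v, Finset.sum_sub_distrib, blk_pw]
    simp
  · rw [pw1 a j hu]
    have h1 : ∀ v : Fin (a + 1 + j + r), (if (Gr (a + 1 + j + r) a j).Adj u v then
        vec a j r g0 g1 g2 g3 v else 0) = pw a j g0 0 g2 0 v.1 := by
      intro v
      have hadj : (Gr (a + 1 + j + r) a j).Adj u v ↔ (v.1 < a ∨ (a < v.1 ∧ v.1 ≤ a + j)) := by
        constructor
        · rintro ⟨h1, h2⟩
          have : u.1 ≠ v.1 := fun h => h1 (Fin.ext h)
          omega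
        · intro h
          refine ⟨fun h' => ?_, ?_⟩
          · subst h'; omega
          · omega
      simp only [vec, pw, hadj]
      split_ifs <;> first | rfl | omega
    rw [Finset.sum_congr rfl fun v _ => h1 v, blk_pw]
    ring
  · by_cases hu2 : u.1 ≤ a + j
    · rw [pw2 a j hu hu2]
      have h1 : ∀ v : Fin (a + 1 + j + r), (if (Gr (a + 1 + j + r) a j).Adj u v then
          vec a j r g0 g1 g2 g3 v else 0) = pw a j g0 g1 0 0 v.1 := by
        intro v
        have hadj : (Gr (a + 1 + j + r) a j).Adj u v ↔ (v.1 ≤ a) := by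
          constructor
          · rintro ⟨h1, h2⟩
            have : u.1 ≠ v.1 := fun h => h1 (Fin.ext h)
            omega
          · intro h
            refine ⟨fun h' => ?_, ?_⟩
            · subst h'; omega
            · omega
        simp only [vec, pw, hadj]
        split_ifs <;> first | rfl | omega
      rw [Finset.sum_congr rfl fun v _ => h1 v, blk_pw]
      ring
    · rw [pw3 a j (by omega)]
      have h1 : ∀ v : Fin (a + 1 + j + r), (if (Gr (a + 1 + j + r) a j).Adj u v then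
          vec a j r g0 g1 g2 g3 v else 0) = pw a j g0 0 0 0 v.1 := by
        intro v
        have hadj : (Gr (a + 1 + j + r) a j).Adj u v ↔ (v.1 < a) := by
          constructor
          · rintro ⟨h1, h2⟩
            have : u.1 ≠ v.1 := fun h => h1 (Fin.ext h)
            omega
          · intro h
            refine ⟨fun h' => ?_, ?_⟩
            · subst h'; omega
            · omega
        simp only [vec, pw, hadj]
        split_ifs <;> first | rfl | omega
      rw [Finset.sum_congr rfl fun v _ => h1 v, blk_pw]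
      ring

theorem deg (u : Fin (a + 1 + j + r)) :
    ((Gr (a + 1 + j + r) a j).degree u : ℝ)
      = pw a j (a + j + r) (a + j) (a + 1) a u.1 := by
  have h := nsum a j r 1 1 1 1 u
  have h1 : ∑ v ∈ (Gr (a + 1 + j + r) a j).neighborFinset u, vec a j r 1 1 1 1 v
      = ((Gr (a + 1 + j + r) a j).degree u : ℝ) := by
    have : ∀ v, vec a j r 1 1 1 1 v = 1 := by
      intro v; simp only [vec, pw]; split_ifs <;> rfl
    simp [this]
  rw [← h1, h]
  congr 1 <;> ring

theorem lap_vec (g0 g1 g2 g3 : ℝ) :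
    (Gr (a + 1 + j + r) a j).lapMatrix ℝ *ᵥ vec a j r g0 g1 g2 g3
      = vec a j r ((a + 1 + j + r) * g0 - (a * g0 + g1 + j * g2 + r * g3))
          ((a + j) * g1 - (a * g0 + j * g2)) ((a + 1) * g2 - (a * g0 + g1)) (a * g3 - a * g0) := by
  funext u
  rw [SimpleGraph.lapMatrix_mulVec_apply, nsum, deg]
  simp only [vec, pw]
  split_ifs <;> ring

theorem card_edges :
    2 * (((Gr (a + 1 + j + r) a j).edgeFinset.card : ℕ) : ℝ)
      = a * (a + j + r) + a * (1 + j + r) + 2 * j := by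
  have h := SimpleGraph.sum_degrees_eq_twice_card_edges (Gr (a + 1 + j + r) a j)
  have h2 : ((∑ v, (Gr (a + 1 + j + r) a j).degree v : ℕ) : ℝ)
      = ((2 * (Gr (a + 1 + j + r) a j).edgeFinset.card : ℕ) : ℝ) := by rw [h]
  push_cast at h2
  rw [← h2, Finset.sum_congr rfl fun v _ => deg a j r v, blk_pw]
  ring


/-- the indicator diagonal matrix of the dominating vertices -/
noncomputable def DK : Matrix (Fin (a + 1 + j + r)) (Fin (a + 1 + j + r)) ℝ :=
  Matrix.diagonal (vec a j r 1 0 0 0)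

/-- the projection -/
noncomputable def PP : Matrix (Fin (a + 1 + j + r)) (Fin (a + 1 + j + r)) ℝ :=
  DK a j r + (1 / (1 + j + r : ℝ)) • Matrix.vecMulVec (vec a j r 0 1 1 1) (vec a j r 0 1 1 1)
    - (1 / (a + 1 + j + r : ℝ)) • Matrix.vecMulVec (vec a j r 1 1 1 1) (vec a j r 1 1 1 1)
    + (1 / (j * (j + 1) : ℝ)) • Matrix.vecMulVec (vec a j r 0 j (-1) 0) (vec a j r 0 j (-1) 0)

theorem PP_symm : (PP a j r)ᵀ = PP a j r := by
  simp only [PP, DK, Matrix.transpose_add, Matrix.transpose_sub, Matrix.transpose_smul,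
    Matrix.diagonal_transpose]
  have h : ∀ x : Fin (a + 1 + j + r) → ℝ, (Matrix.vecMulVec x x)ᵀ = Matrix.vecMulVec x x := by
    intro x; ext i k; simp [Matrix.vecMulVec_apply, mul_comm]
  rw [h, h, h]

theorem DK_mulVec (g0 g1 g2 g3 : ℝ) : DK a j r *ᵥ vec a j r g0 g1 g2 g3 = vec a j r g0 0 0 0 := by
  funext u
  rw [DK, Matrix.mulVec_diagonal]
  simp only [vec, pw]
  split_ifs <;> ring

theorem PP_mulVec (g0 g1 g2 g3 : ℝ) : PP a j r *ᵥ vec a j r g0 g1 g2 g3
    = vec a j r g0 0 0 0 + ((1 / (1 + j + r : ℝ)) * (g1 + j * g2 + r * g3)) • vec a j r 0 1 1 1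
      - ((1 / (a + 1 + j + r : ℝ)) * (a * g0 + g1 + j * g2 + r * g3)) • vec a j r 1 1 1 1
      + ((1 / (j * (j + 1) : ℝ)) * (j * g1 - j * g2)) • vec a j r 0 j (-1) 0 := by
  have h : ∀ x y : Fin (a + 1 + j + r) → ℝ, Matrix.vecMulVec x x *ᵥ y = (x ⬝ᵥ y) • x := by
    intro x y
    ext i
    simp [Matrix.mulVec, dotProduct, Matrix.vecMulVec_apply, Finset.mul_sum, mul_comm, mul_left_comm]
  rw [PP, Matrix.add_mulVec, Matrix.sub_mulVec, Matrix.add_mulVec, Matrix.smul_mulVec,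
    Matrix.smul_mulVec, Matrix.smul_mulVec, h, h, h, DK_mulVec, vec_dot, vec_dot, vec_dot]
  funext u
  simp only [Pi.add_apply, Pi.sub_apply, Pi.smul_apply, smul_eq_mul]
  ring

theorem PP_R : PP a j r *ᵥ vec a j r 0 1 1 1
    = vec a j r 0 1 1 1 - ((1 + j + r) / (a + 1 + j + r : ℝ)) • vec a j r 1 1 1 1 := by
  rw [PP_mulVec]
  have h1 : (1 + j + r : ℝ) ≠ 0 := by positivity
  have h2 : (a + 1 + j + r : ℝ) ≠ 0 := by positivity
  funext u
  simp only [Pi.add_apply, Pi.sub_apply, Pi.smul_apply, smul_eq_mul, vec, pw]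
  split_ifs <;> field_simp <;> ring

theorem PP_one : PP a j r *ᵥ vec a j r 1 1 1 1 = 0 := by
  rw [PP_mulVec]
  have h1 : (1 + j + r : ℝ) ≠ 0 := by positivity
  have h2 : (a + 1 + j + r : ℝ) ≠ 0 := by positivity
  funext u
  simp only [Pi.add_apply, Pi.sub_apply, Pi.smul_apply, smul_eq_mul, vec, pw, Pi.zero_apply]
  split_ifs <;> field_simp <;> ring

theorem PP_w (hj : 0 < j) : PP a j r *ᵥ vec a j r 0 j (-1) 0 = vec a j r 0 j (-1) 0 := by
  rw [PP_mulVec]
  have h0 : (j : ℝ) ≠ 0 := by positivity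
  have h1 : (1 + j + r : ℝ) ≠ 0 := by positivity
  have h2 : (a + 1 + j + r : ℝ) ≠ 0 := by positivity
  have h3 : (j + 1 : ℝ) ≠ 0 := by positivity
  funext u
  simp only [Pi.add_apply, Pi.sub_apply, Pi.smul_apply, smul_eq_mul, vec, pw]
  split_ifs <;> field_simp <;> ring

theorem PP_sq (hj : 0 < j) : PP a j r * PP a j r = PP a j r := by
  have hM : ∀ M : Matrix (Fin (a + 1 + j + r)) (Fin (a + 1 + j + r)) ℝ, M * PP a j r
      = M * DK a j r + (1 / (1 + j + r : ℝ)) • Matrix.vecMulVec (M *ᵥ vec a j r 0 1 1 1) (vec a j r 0 1 1 1)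
        - (1 / (a + 1 + j + r : ℝ)) • Matrix.vecMulVec (M *ᵥ vec a j r 1 1 1 1) (vec a j r 1 1 1 1)
        + (1 / (j * (j + 1) : ℝ)) • Matrix.vecMulVec (M *ᵥ vec a j r 0 j (-1) 0) (vec a j r 0 j (-1) 0) := by
    intro M
    rw [PP, Matrix.mul_add, Matrix.mul_sub, Matrix.mul_add, Matrix.mul_smul, Matrix.mul_smul,
      Matrix.mul_smul, Matrix.mul_vecMulVec, Matrix.mul_vecMulVec, Matrix.mul_vecMulVec]
  have hD : PP a j r * DK a j r = DK a j r
      - (1 / (a + 1 + j + r : ℝ)) • Matrix.vecMulVec (vec a j r 1 1 1 1) (vec a j r 1 0 0 0) := by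
    have e1 : DK a j r * DK a j r = DK a j r := by
      rw [DK, Matrix.diagonal_mul_diagonal]
      congr 1
      funext u
      simp only [vec, pw]
      split_ifs <;> ring
    have e2 : ∀ g0 g1 g2 g3 : ℝ, vec a j r g0 g1 g2 g3 ᵥ* DK a j r = vec a j r g0 0 0 0 := by
      intro g0 g1 g2 g3
      funext u
      rw [DK, Matrix.vecMul_diagonal]
      simp only [vec, pw]
      split_ifs <;> ring
    have e3 : vec a j r 0 0 0 0 = 0 := by
      funext u
      simp [vec, pw]
    conv_lhs => rw [PP]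
    rw [Matrix.add_mul, Matrix.sub_mul, Matrix.add_mul, Matrix.smul_mul, Matrix.smul_mul,
      Matrix.smul_mul, Matrix.vecMulVec_mul, Matrix.vecMulVec_mul, Matrix.vecMulVec_mul, e1, e2, e2,
      e2, e3]
    ext u v
    simp [Matrix.vecMulVec_apply]
  rw [hM (PP a j r), hD, PP_R, PP_one, PP_w a j r hj]
  have h1 : (1 + j + r : ℝ) ≠ 0 := by positivity
  have h2 : (a + 1 + j + r : ℝ) ≠ 0 := by positivity
  ext u v
  simp only [PP, Matrix.add_apply, Matrix.sub_apply, Matrix.smul_apply, Matrix.vecMulVec_apply,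
    smul_eq_mul, Pi.sub_apply, Pi.smul_apply, Pi.zero_apply]
  have hv : vec a j r 1 0 0 0 v = 1 - vec a j r 0 1 1 1 v := by
    simp only [vec, pw]; split_ifs <;> ring
  have hv1 : vec a j r 1 1 1 1 v = 1 := by
    simp only [vec, pw]; split_ifs <;> ring
  have hu1 : vec a j r 1 1 1 1 u = 1 := by
    simp only [vec, pw]; split_ifs <;> ring
  rw [hv, hv1, hu1]
  field_simp
  ring

theorem DK_trace : (DK a j r).trace = a := by
  rw [DK, Matrix.trace_diagonal]
  have := blk_pw a j r 1 0 0 0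
  simpa [vec] using this

theorem PP_trace (hj : 0 < j) : (PP a j r).trace = a + 1 := by
  rw [PP, Matrix.trace_add, Matrix.trace_sub, Matrix.trace_add, Matrix.trace_smul,
    Matrix.trace_smul, Matrix.trace_smul, Matrix.trace_vecMulVec, Matrix.trace_vecMulVec,
    Matrix.trace_vecMulVec, vec_dot, vec_dot, vec_dot, DK_trace]
  have h0 : (j : ℝ) ≠ 0 := by positivity
  have h1 : (1 + j + r : ℝ) ≠ 0 := by positivity
  have h2 : (a + 1 + j + r : ℝ) ≠ 0 := by positivity
  have h3 : (j + 1 : ℝ) ≠ 0 := by positivity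
  simp only [smul_eq_mul]
  field_simp
  ring

theorem lap_trace : ((Gr (a + 1 + j + r) a j).lapMatrix ℝ).trace
    = a * (a + j + r) + a * (1 + j + r) + 2 * j := by
  rw [Matrix.trace]
  have : ∀ u, Matrix.diag ((Gr (a + 1 + j + r) a j).lapMatrix ℝ) u
      = pw a j (a + j + r) (a + j) (a + 1) a u.1 := by
    intro u
    rw [← deg a j r u]
    simp [Matrix.diag, SimpleGraph.lapMatrix, SimpleGraph.degMatrix]
  rw [Finset.sum_congr rfl fun u _ => this u, blk_pw]
  ring

theorem DK_lap_trace : (DK a j r * (Gr (a + 1 + j + r) a j).lapMatrix ℝ).trace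
    = a * (a + j + r) := by
  rw [Matrix.trace]
  have : ∀ u, Matrix.diag (DK a j r * (Gr (a + 1 + j + r) a j).lapMatrix ℝ) u
      = pw a j (a + j + r) 0 0 0 u.1 := by
    intro u
    have h := deg a j r u
    have h2 : (Gr (a + 1 + j + r) a j).lapMatrix ℝ u u = ((Gr (a + 1 + j + r) a j).degree u : ℝ) := by
      simp [SimpleGraph.lapMatrix, SimpleGraph.degMatrix]
    rw [Matrix.diag, DK, Matrix.diagonal_mul, h2, h]
    simp only [vec, pw]
    split_ifs <;> ring
  rw [Finset.sum_congr rfl fun u _ => this u, blk_pw]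
  ring

theorem PP_lap_trace (hj : 0 < j) : (PP a j r * (Gr (a + 1 + j + r) a j).lapMatrix ℝ).trace
    = a * (a + 1 + j + r) + (a + 1 + j) := by
  have hL : ((Gr (a + 1 + j + r) a j).lapMatrix ℝ)ᵀ = (Gr (a + 1 + j + r) a j).lapMatrix ℝ :=
    SimpleGraph.isSymm_lapMatrix _ _
  have hv : ∀ g0 g1 g2 g3 : ℝ, vec a j r g0 g1 g2 g3 ᵥ* (Gr (a + 1 + j + r) a j).lapMatrix ℝ
      = (Gr (a + 1 + j + r) a j).lapMatrix ℝ *ᵥ vec a j r g0 g1 g2 g3 := by
    intro g0 g1 g2 g3
    conv_rhs => rw [← hL]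
    rw [Matrix.mulVec_transpose]
  rw [PP, Matrix.add_mul, Matrix.sub_mul, Matrix.add_mul, Matrix.smul_mul, Matrix.smul_mul,
    Matrix.smul_mul, Matrix.vecMulVec_mul, Matrix.vecMulVec_mul, Matrix.vecMulVec_mul,
    Matrix.trace_add, Matrix.trace_sub, Matrix.trace_add, Matrix.trace_smul,
    Matrix.trace_smul, Matrix.trace_smul, Matrix.trace_vecMulVec, Matrix.trace_vecMulVec,
    Matrix.trace_vecMulVec, hv, hv, hv, lap_vec, lap_vec, lap_vec, vec_dot, vec_dot, vec_dot,
    DK_lap_trace]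
  have h0 : (j : ℝ) ≠ 0 := by positivity
  have h1 : (1 + j + r : ℝ) ≠ 0 := by positivity
  have h2 : (a + 1 + j + r : ℝ) ≠ 0 := by positivity
  have h3 : (j + 1 : ℝ) ≠ 0 := by positivity
  simp only [smul_eq_mul]
  field_simp
  ring

end

end Pool.Agent.Helper554.LE
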