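import Mathlib

open Matrix Finset

namespace Pool.Agent.Helper554.LE

variable {n : ℕ}

/-- lower bound of the energy `∑ |λ_i - c|` by a projection -/
theorem energy_lower {A P : Matrix (Fin n) (Fin n) ℝ} (hA : A.IsHermitian)
    (hP : Pᵀ = P) (hPP : P * P = P) (c : ℝ) :
    2 * ((P * A).trace - c * P.trace) - (A.trace - c * n) ≤ ∑ i, |hA.eigenvalues i - c| := by
  classical
  set U : Matrix (Fin n) (Fin n) ℝ := (hA.eigenvectorUnitary : Matrix (Fin n) (Fin n) ℝ) with hU
  have hUU : U * star U = 1 := by
    have := Matrix.mem_unitaryGroup_iff.mp hA.eigenvectorUnitary.2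
    simpa [hU] using this
  have hUU' : star U * U = 1 := by
    have := Matrix.mem_unitaryGroup_iff'.mp hA.eigenvectorUnitary.2
    simpa [hU] using this
  have hspec : A = U * Matrix.diagonal hA.eigenvalues * star U := by
    have := hA.spectral_theorem
    simpa [hU, Unitary.conjStarAlgAut_apply] using this
  set W : Matrix (Fin n) (Fin n) ℝ := star U * P * U with hW
  set w : Fin n → ℝ := fun i => W i i with hw
  have hWW : W * W = W := by
    rw [hW]
    calc star U * P * U * (star U * P * U) = star U * P * (U * star U) * P * U := by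
          simp only [Matrix.mul_assoc]
      _ = star U * (P * P) * U := by rw [hUU]; simp only [Matrix.mul_one, Matrix.mul_assoc]
      _ = star U * P * U := by rw [hPP]
  have hWT : Wᵀ = W := by
    rw [hW]
    simp only [Matrix.transpose_mul, Matrix.star_eq_conjTranspose, Matrix.conjTranspose_eq_transpose_of_trivial, Matrix.transpose_transpose, hP, Matrix.mul_assoc]
  have hwsq : ∀ i, w i = ∑ k, W i k ^ 2 := by
    intro i
    have h1 : W i i = (W * W) i i := by rw [hWW]
    rw [hw]
    simp only
    rw [h1, Matrix.mul_apply]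
    refine Finset.sum_congr rfl fun k _ => ?_
    have : W k i = W i k := by
      conv_lhs => rw [← hWT]
      rfl
    rw [this]; ring
  have hw0 : ∀ i, 0 ≤ w i := fun i => by rw [hwsq i]; positivity
  have hw1 : ∀ i, w i ≤ 1 := by
    intro i
    have h1 : (w i) ^ 2 ≤ w i := by
      conv_rhs => rw [hwsq i]
      exact Finset.single_le_sum (f := fun k => W i k ^ 2) (fun k _ => sq_nonneg _) (Finset.mem_univ i)
    nlinarith [hw0 i]
  have htr1 : (P * A).trace = ∑ i, w i * hA.eigenvalues i := by
    have : (P * A).trace = (W * Matrix.diagonal hA.eigenvalues).trace := by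
      conv_lhs => rw [hspec]
      rw [hW]
      calc (P * (U * Matrix.diagonal hA.eigenvalues * star U)).trace
          = ((P * U * Matrix.diagonal hA.eigenvalues) * star U).trace := by
            simp only [Matrix.mul_assoc]
        _ = (star U * (P * U * Matrix.diagonal hA.eigenvalues)).trace := Matrix.trace_mul_comm _ _
        _ = _ := by simp only [Matrix.mul_assoc]
    rw [this, Matrix.trace]
    refine Finset.sum_congr rfl fun i _ => ?_
    simp [Matrix.diag, Matrix.mul_diagonal, hw]
  have htr2 : P.trace = ∑ i, w i := by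
    have : P.trace = W.trace := by
      rw [hW, Matrix.trace_mul_comm, ← Matrix.mul_assoc, hUU, Matrix.one_mul]
    rw [this]; rfl
  have htr3 : A.trace = ∑ i, hA.eigenvalues i := by
    have := hA.trace_eq_sum_eigenvalues
    simpa using this
  have hsum : 2 * ((P * A).trace - c * P.trace) - (A.trace - c * n)
      = ∑ i, (2 * w i - 1) * (hA.eigenvalues i - c) := by
    rw [htr1, htr2, htr3]
    have h4 : (∑ i : Fin n, c) = c * n := by simp [mul_comm]
    have h5 : ∑ i, (2 * w i - 1) * (hA.eigenvalues i - c)
      = 2 * (∑ i, w i * hA.eigenvalues i) - 2 * c * (∑ i, w i) - ∑ i, hA.eigenvalues i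
        + ∑ i : Fin n, c := by
      rw [Finset.mul_sum, Finset.mul_sum, ← Finset.sum_sub_distrib, ← Finset.sum_sub_distrib,
        ← Finset.sum_add_distrib]
      exact Finset.sum_congr rfl fun i _ => by ring
    rw [h5, h4]; ring
  rw [hsum]
  refine Finset.sum_le_sum fun i _ => ?_
  have h6 : |2 * w i - 1| ≤ 1 := by
    rw [abs_le]; constructor <;> nlinarith [hw0 i, hw1 i]
  calc (2 * w i - 1) * (hA.eigenvalues i - c) ≤ |(2 * w i - 1) * (hA.eigenvalues i - c)| := le_abs_self _
    _ = |2 * w i - 1| * |hA.eigenvalues i - c| := abs_mul _ _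
    _ ≤ 1 * |hA.eigenvalues i - c| := mul_le_mul_of_nonneg_right h6 (abs_nonneg _)
    _ = _ := one_mul _

end Pool.Agent.Helper554.LE
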