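import Mathlib
import Pool.Agent.Helper554.LE.Defs
import Pool.Agent.Helper554.LE.Low
import Pool.Agent.Helper554.LE.Ex
import Pool.Agent.Helper554.LE.Arith

open Matrix Finset SimpleGraph

namespace Pool.Agent.Helper554.LE

theorem lapEnergy_eq {n : ℕ} (G : SimpleGraph (Fin n)) [DecidableRel G.Adj]
    (hL : (G.lapMatrix ℝ).IsHermitian) :
    lapEnergy G = ∑ i, |hL.eigenvalues i - 2 * (G.edgeFinset.card : ℝ) / (n : ℝ)| := by
  rw [lapEnergy, hL.roots_charpoly_eq_eigenvalues]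
  simp [Function.comp_def, List.sum_ofFn]

theorem trace_lap {n : ℕ} (G : SimpleGraph (Fin n)) [DecidableRel G.Adj] :
    (G.lapMatrix ℝ).trace = 2 * (G.edgeFinset.card : ℝ) := by
  have h := SimpleGraph.sum_degrees_eq_twice_card_edges G
  have h2 : ((∑ v, G.degree v : ℕ) : ℝ) = ((2 * G.edgeFinset.card : ℕ) : ℝ) := by rw [h]
  push_cast at h2
  rw [← h2, Matrix.trace]
  refine Finset.sum_congr rfl fun v _ => ?_
  simp [Matrix.diag, SimpleGraph.lapMatrix, SimpleGraph.degMatrix]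

theorem eig_nonneg {n : ℕ} (G : SimpleGraph (Fin n)) [DecidableRel G.Adj]
    (hL : (G.lapMatrix ℝ).IsHermitian) (i : Fin n) : 0 ≤ hL.eigenvalues i :=
  (SimpleGraph.posSemidef_lapMatrix ℝ G).eigenvalues_nonneg i

theorem eig_le {n : ℕ} (G : SimpleGraph (Fin n)) [DecidableRel G.Adj]
    (hL : (G.lapMatrix ℝ).IsHermitian) (i : Fin n) : hL.eigenvalues i ≤ n := by
  classical
  set v : Fin n → ℝ := (hL.eigenvectorBasis i : Fin n → ℝ) with hv
  have h1 : (G.lapMatrix ℝ) *ᵥ v = hL.eigenvalues i • v := hL.mulVec_eigenvectorBasis i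
  have hnorm : ∑ k, v k ^ 2 = 1 := by
    have h2 := hL.eigenvectorBasis.orthonormal.1 i
    have h3 : ‖hL.eigenvectorBasis i‖ ^ 2 = 1 := by rw [h2]; norm_num
    rw [EuclideanSpace.norm_sq_eq] at h3
    simpa [hv] using h3
  have h4 : v ⬝ᵥ ((G.lapMatrix ℝ) *ᵥ v) = hL.eigenvalues i := by
    rw [h1]
    simp only [dotProduct, Pi.smul_apply, smul_eq_mul]
    calc ∑ x, v x * (hL.eigenvalues i * v x) = hL.eigenvalues i * ∑ x, v x ^ 2 := by
          rw [Finset.mul_sum]; exact Finset.sum_congr rfl fun x _ => by ring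
      _ = _ := by rw [hnorm, mul_one]
  have h5 : v ⬝ᵥ ((G.lapMatrix ℝ) *ᵥ v)
      = (∑ i, ∑ j, if G.Adj i j then (v i - v j) ^ 2 else 0) / 2 := by
    have := SimpleGraph.lapMatrix_toLinearMap₂' ℝ G v
    rw [← this, Matrix.toLinearMap₂'_apply']
  rw [← h4, h5]
  have h6 : (∑ i, ∑ j, if G.Adj i j then (v i - v j) ^ 2 else 0)
      ≤ ∑ i : Fin n, ∑ j : Fin n, (v i - v j) ^ 2 := by
    refine Finset.sum_le_sum fun i _ => Finset.sum_le_sum fun j _ => ?_
    split_ifs
    · exact le_refl _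
    · positivity
  have h7 : ∑ i : Fin n, ∑ j : Fin n, (v i - v j) ^ 2
      = 2 * n * (∑ k, v k ^ 2) - 2 * (∑ k, v k) ^ 2 := by
    have : ∀ i j : Fin n, (v i - v j) ^ 2 = v i ^ 2 + v j ^ 2 - 2 * (v i * v j) := by
      intro i j; ring
    simp_rw [this, Finset.sum_sub_distrib, Finset.sum_add_distrib, ← Finset.mul_sum]
    simp only [Finset.sum_const, Finset.card_univ, Fintype.card_fin, nsmul_eq_mul]
    rw [← Finset.mul_sum, ← Finset.sum_mul]
    ring
  rw [hnorm] at h7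
  nlinarith [sq_nonneg (∑ k, v k)]

/-- `Brouwer's inequality` for every set of Laplacian eigenvalues -/
def BrouwerStatement : Prop :=
  ∀ (n : ℕ) (G : SimpleGraph (Fin n)) [DecidableRel G.Adj] (t : Multiset ℝ),
      t ≤ (G.lapMatrix ℝ).charpoly.roots →
        t.sum ≤ (G.edgeFinset.card : ℝ) + ((Nat.choose (t.card + 1) 2 : ℕ) : ℝ)

theorem upper_gen (hB : BrouwerStatement) {n : ℕ} (hn : 0 < n) (G : SimpleGraph (Fin n))
    [DecidableRel G.Adj] : ∃ (s : ℕ) (S : ℝ), s ≤ n ∧ S ≤ s * n ∧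
      S ≤ (G.edgeFinset.card : ℝ) + s * (s + 1) / 2 ∧ S ≤ 2 * (G.edgeFinset.card : ℝ) ∧
      lapEnergy G = 2 * (S - 2 * (G.edgeFinset.card : ℝ) / n * s) := by
  classical
  have hL : (G.lapMatrix ℝ).IsHermitian := SimpleGraph.isHermitian_lapMatrix (R := ℝ) G
  set c : ℝ := 2 * (G.edgeFinset.card : ℝ) / n with hc
  set t : Finset (Fin n) := Finset.univ.filter fun i => c ≤ hL.eigenvalues i with ht
  have hnR : (n : ℝ) ≠ 0 := by positivity
  refine ⟨t.card, ∑ i ∈ t, hL.eigenvalues i, ?_, ?_, ?_, ?_, ?_⟩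
  · simpa using Finset.card_le_univ t
  · calc ∑ i ∈ t, hL.eigenvalues i ≤ ∑ i ∈ t, (n : ℝ) :=
          Finset.sum_le_sum fun i _ => eig_le G hL i
      _ = t.card * n := by simp
  · have hsub : t.val.map hL.eigenvalues ≤ (G.lapMatrix ℝ).charpoly.roots := by
      rw [hL.roots_charpoly_eq_eigenvalues]
      have : t.val.map hL.eigenvalues ≤ (Finset.univ : Finset (Fin n)).val.map hL.eigenvalues :=
        Multiset.map_le_map (Finset.val_le_iff.mpr (Finset.subset_univ t))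
      simpa [Function.comp_def] using this
    have h := hB n G _ hsub
    have h1 : (t.val.map hL.eigenvalues).sum = ∑ i ∈ t, hL.eigenvalues i := rfl
    have h2 : (t.val.map hL.eigenvalues).card = t.card := by simp
    rw [h1, h2] at h
    have h3 : ((Nat.choose (t.card + 1) 2 : ℕ) : ℝ) = t.card * (t.card + 1) / 2 := by
      rw [Nat.cast_choose_two]
      push_cast
      ring
    rw [h3] at h
    exact h
  · have h1 : ∑ i ∈ t, hL.eigenvalues i ≤ ∑ i, hL.eigenvalues i :=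
      Finset.sum_le_sum_of_subset_of_nonneg (Finset.subset_univ t) fun i _ _ => eig_nonneg G hL i
    have h2 : (G.lapMatrix ℝ).trace = ∑ i, hL.eigenvalues i := by
      have := hL.trace_eq_sum_eigenvalues
      simpa using this
    rw [← h2, trace_lap] at h1
    exact h1
  · rw [lapEnergy_eq G hL]
    have h2 : ∑ i, hL.eigenvalues i = c * n := by
      have h3 : (G.lapMatrix ℝ).trace = ∑ i, hL.eigenvalues i := by
        have := hL.trace_eq_sum_eigenvalues
        simpa using this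
      rw [← h3, trace_lap, hc]
      field_simp
    have h4 : ∀ i, |hL.eigenvalues i - c| = 2 * (if i ∈ t then hL.eigenvalues i - c else 0)
        - (hL.eigenvalues i - c) := by
      intro i
      by_cases hi : c ≤ hL.eigenvalues i
      · have : i ∈ t := by simp [ht, hi]
        rw [if_pos this, abs_of_nonneg (by linarith)]
        ring
      · have : i ∉ t := by simp [ht, hi]
        rw [if_neg this, abs_of_nonpos (by linarith [not_le.mp hi])]
        ring
    rw [Finset.sum_congr rfl fun i _ => h4 i, Finset.sum_sub_distrib, ← Finset.mul_sum,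
      Finset.sum_ite_mem, Finset.univ_inter, Finset.sum_sub_distrib, Finset.sum_sub_distrib, h2]
    simp only [Finset.sum_const, Finset.card_univ, Fintype.card_fin, nsmul_eq_mul]
    ring


theorem gr_connected (a j r : ℕ) (hj : 1 ≤ j) (hm : a = 0 → r = 0) :
    (Gr (a + 1 + j + r) a j).Connected := by
  have : Nonempty (Fin (a + 1 + j + r)) := ⟨⟨0, by omega⟩⟩
  have key : ∀ u : Fin (a + 1 + j + r), (Gr (a + 1 + j + r) a j).Reachable ⟨0, by omega⟩ u := by
    intro u
    by_cases hu : (⟨0, by omega⟩ : Fin (a + 1 + j + r)) = u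
    · rw [hu]
    · refine SimpleGraph.Adj.reachable ⟨hu, ?_⟩
      rcases Nat.eq_zero_or_pos a with ha | ha
      · right
        have := hm ha
        have := u.2
        simp only
        constructor
        · omega
        · omega
      · left
        simp only
        omega
  exact SimpleGraph.Connected.mk fun u v => (key u).symm.trans (key v)

theorem gr_lower (a j r : ℕ) (hj : 1 ≤ j) (m : ℝ)
    (hm : m = a * (a - 1) / 2 + a * (((a + 1 + j + r : ℕ) : ℝ) - a) + j) :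
    ((Gr (a + 1 + j + r) a j).edgeFinset.card : ℝ) = m ∧
    2 * (a * (((a + 1 + j + r : ℕ) : ℝ) - 2 * m / ((a + 1 + j + r : ℕ) : ℝ))
      + (a + 1 + j - 2 * m / ((a + 1 + j + r : ℕ) : ℝ))) ≤ lapEnergy (Gr (a + 1 + j + r) a j) := by
  have hE : ((Gr (a + 1 + j + r) a j).edgeFinset.card : ℝ) = m := by
    have := card_edges a j r
    rw [hm]
    push_cast
    linarith
  refine ⟨hE, ?_⟩
  have hL : ((Gr (a + 1 + j + r) a j).lapMatrix ℝ).IsHermitian :=
    SimpleGraph.isHermitian_lapMatrix (R := ℝ) _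
  rw [lapEnergy_eq _ hL, hE]
  have h := energy_lower hL (PP_symm a j r) (PP_sq a j r (by omega))
    (2 * m / ((a + 1 + j + r : ℕ) : ℝ))
  rw [PP_lap_trace a j r (by omega), PP_trace a j r (by omega), trace_lap, hE] at h
  have hn : (((a + 1 + j + r : ℕ) : ℝ)) ≠ 0 := by positivity
  have h2 : 2 * m / ((a + 1 + j + r : ℕ) : ℝ) * ((a + 1 + j + r : ℕ) : ℝ) = 2 * m := by
    field_simp
  rw [h2] at h
  push_cast at h ⊢
  linarith


section
variable (a j r : ℕ)

/-- the rank one projection on the star vector -/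
noncomputable def QQ : Matrix (Fin (a + 1 + j + r)) (Fin (a + 1 + j + r)) ℝ :=
  (1 / (j * (j + 1) : ℝ)) • Matrix.vecMulVec (vec a j r 0 j (-1) 0) (vec a j r 0 j (-1) 0)

theorem QQ_symm : (QQ a j r)ᵀ = QQ a j r := by
  rw [QQ, Matrix.transpose_smul]
  congr 1
  ext i k; simp [Matrix.vecMulVec_apply, mul_comm]

theorem PP_QQ (hj : 0 < j) : PP a j r * QQ a j r = QQ a j r := by
  rw [QQ, Matrix.mul_smul, Matrix.mul_vecMulVec, PP_w a j r hj]

theorem QQ_PP (hj : 0 < j) : QQ a j r * PP a j r = QQ a j r := by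
  have h := congrArg Matrix.transpose (PP_QQ a j r hj)
  rw [Matrix.transpose_mul, QQ_symm, PP_symm] at h
  exact h

theorem QQ_QQ (hj : 0 < j) : QQ a j r * QQ a j r = QQ a j r := by
  have h0 : (j : ℝ) ≠ 0 := by positivity
  have h3 : (j + 1 : ℝ) ≠ 0 := by positivity
  conv_lhs => rw [QQ]
  rw [Matrix.smul_mul, Matrix.mul_smul, Matrix.vecMulVec_mul_vecMulVec, vec_dot, QQ]
  ext u v
  simp only [Matrix.smul_apply, Matrix.vecMulVec_apply, smul_eq_mul, Pi.smul_apply]
  field_simp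
  ring

theorem QQ_trace (hj : 0 < j) : (QQ a j r).trace = 1 := by
  have h0 : (j : ℝ) ≠ 0 := by positivity
  have h3 : (j + 1 : ℝ) ≠ 0 := by positivity
  rw [QQ, Matrix.trace_smul, Matrix.trace_vecMulVec, vec_dot, smul_eq_mul]
  field_simp
  ring

theorem QQ_lap_trace (hj : 0 < j) :
    (QQ a j r * (Gr (a + 1 + j + r) a j).lapMatrix ℝ).trace = a + 1 + j := by
  have h0 : (j : ℝ) ≠ 0 := by positivity
  have h3 : (j + 1 : ℝ) ≠ 0 := by positivity
  have hL : ((Gr (a + 1 + j + r) a j).lapMatrix ℝ)ᵀ = (Gr (a + 1 + j + r) a j).lapMatrix ℝ :=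
    SimpleGraph.isSymm_lapMatrix _ _
  have hv : ∀ g0 g1 g2 g3 : ℝ, vec a j r g0 g1 g2 g3 ᵥ* (Gr (a + 1 + j + r) a j).lapMatrix ℝ
      = (Gr (a + 1 + j + r) a j).lapMatrix ℝ *ᵥ vec a j r g0 g1 g2 g3 := by
    intro g0 g1 g2 g3
    conv_rhs => rw [← hL]
    rw [Matrix.mulVec_transpose]
  rw [QQ, Matrix.smul_mul, Matrix.vecMulVec_mul, Matrix.trace_smul, Matrix.trace_vecMulVec, hv,
    lap_vec, vec_dot, smul_eq_mul]
  field_simp
  ring

end

theorem gr_lower' (a j r : ℕ) (hj : 1 ≤ j) (m : ℝ)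
    (hm : m = a * (a - 1) / 2 + a * (((a + 1 + j + r : ℕ) : ℝ) - a) + j) :
    2 * (a * (((a + 1 + j + r : ℕ) : ℝ) - 2 * m / ((a + 1 + j + r : ℕ) : ℝ)))
      ≤ lapEnergy (Gr (a + 1 + j + r) a j) := by
  have hE : ((Gr (a + 1 + j + r) a j).edgeFinset.card : ℝ) = m := (gr_lower a j r hj m hm).1
  have hL : ((Gr (a + 1 + j + r) a j).lapMatrix ℝ).IsHermitian :=
    SimpleGraph.isHermitian_lapMatrix (R := ℝ) _
  rw [lapEnergy_eq _ hL, hE]
  have hsymm : (PP a j r - QQ a j r)ᵀ = PP a j r - QQ a j r := by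
    rw [Matrix.transpose_sub, PP_symm, QQ_symm]
  have hsq : (PP a j r - QQ a j r) * (PP a j r - QQ a j r) = PP a j r - QQ a j r := by
    rw [Matrix.sub_mul, Matrix.mul_sub, Matrix.mul_sub, PP_sq a j r (by omega),
      PP_QQ a j r (by omega), QQ_PP a j r (by omega), QQ_QQ a j r (by omega)]
    abel
  have h := energy_lower hL hsymm hsq (2 * m / ((a + 1 + j + r : ℕ) : ℝ))
  rw [Matrix.sub_mul, Matrix.trace_sub, Matrix.trace_sub, PP_lap_trace a j r (by omega),
    PP_trace a j r (by omega), QQ_trace a j r (by omega), QQ_lap_trace a j r (by omega),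
    trace_lap, hE] at h
  have hn : (((a + 1 + j + r : ℕ) : ℝ)) ≠ 0 := by positivity
  have h2 : 2 * m / ((a + 1 + j + r : ℕ) : ℝ) * ((a + 1 + j + r : ℕ) : ℝ) = 2 * m := by
    field_simp
  rw [h2] at h
  push_cast at h ⊢
  linarith

theorem dense_of_brouwer (hB : BrouwerStatement) (n a j m : ℕ) (hj : 1 ≤ j) (hjn : a + j + 1 ≤ n)
    (hm : m = a.choose 2 + a * (n - a) + j) (hd : n ^ 2 + 9 * n ≤ 4 * m) :
    IsGreatest (Energies n m)
      (2 * max (a * (n - 2 * m / n : ℝ)) (a * (n - 2 * m / n : ℝ) + (a + 1 + j - 2 * m / n))) := by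
  obtain ⟨r, rfl⟩ : ∃ r, n = a + 1 + j + r := ⟨n - (a + 1 + j), by omega⟩
  have hmR : (m : ℝ) = a * (a - 1) / 2 + a * (((a + 1 + j + r : ℕ) : ℝ) - a) + j := by
    rw [hm]
    push_cast [Nat.cast_choose_two]
    have : ((a + 1 + j + r - a : ℕ) : ℝ) = ((a + 1 + j + r : ℕ) : ℝ) - a := by
      rw [Nat.cast_sub (by omega)]
    rw [this]
    push_cast
    ring
  have hdR : (((a + 1 + j + r : ℕ) : ℝ)) ^ 2 + 9 * ((a + 1 + j + r : ℕ) : ℝ) ≤ 4 * (m : ℝ) := by
    exact_mod_cast hd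
  have hn0 : 0 < a + 1 + j + r := by omega
  have hn : (((a + 1 + j + r : ℕ) : ℝ)) ≠ 0 := by positivity
  have hcn : ((a + 1 + j + r : ℕ) : ℝ) * (2 * (m : ℝ) / ((a + 1 + j + r : ℕ) : ℝ)) = 2 * m := by
    field_simp
  have ha0 : a = 0 → r = 0 := by
    intro ha
    subst ha
    exfalso
    simp at hm
    subst hm
    nlinarith
  have hub : ∀ e ∈ Energies (a + 1 + j + r) m,
      e ≤ 2 * max (a * (((a + 1 + j + r : ℕ) : ℝ) - 2 * m / ((a + 1 + j + r : ℕ) : ℝ)))
        (a * (((a + 1 + j + r : ℕ) : ℝ) - 2 * m / ((a + 1 + j + r : ℕ) : ℝ))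
          + (a + 1 + j - 2 * m / ((a + 1 + j + r : ℕ) : ℝ))) := by
    rintro e ⟨G, _, -, hG, rfl⟩
    obtain ⟨s, S, hs, h1, h2, h3, h4⟩ := upper_gen hB hn0 G
    rw [h4]
    rw [hG] at h2 h3 ⊢
    have := arith (a + 1 + j + r) a j s hj hjn hs (m : ℝ) _ S hmR hcn hdR h1 h2 h3
    linarith
  constructor
  · refine ⟨Gr (a + 1 + j + r) a j, inferInstance, gr_connected a j r hj ha0, ?_, ?_⟩
    · have := (gr_lower a j r hj m hmR).1
      exact_mod_cast this
    · apply le_antisymm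
      · apply hub
        refine ⟨Gr (a + 1 + j + r) a j, inferInstance, gr_connected a j r hj ha0, ?_, rfl⟩
        have := (gr_lower a j r hj m hmR).1
        exact_mod_cast this
      · rw [mul_max_of_nonneg _ _ (by norm_num)]
        exact max_le (gr_lower' a j r hj m hmR) (gr_lower a j r hj m hmR).2
  · intro e he
    exact hub e he

/-- every number of edges has the form `C(a,2) + a(n-a) + j` -/
theorem decomp (n m : ℕ) (hm0 : 1 ≤ m) (hm : m ≤ n.choose 2) :
    ∃ a j : ℕ, 1 ≤ j ∧ a + j + 1 ≤ n ∧ m = a.choose 2 + a * (n - a) + j := by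
  classical
  let g : ℕ → ℕ := fun a => a.choose 2 + a * (n - a)
  have hex : ∃ a, a ≤ n ∧ m ≤ g a := ⟨n, le_refl n, by simpa [g] using hm⟩
  let b := Nat.find hex
  have hb : b ≤ n ∧ m ≤ g b := Nat.find_spec hex
  have hb0 : b ≠ 0 := by
    intro h
    rw [h] at hb
    simp [g] at hb
    omega
  obtain ⟨a, ha⟩ : ∃ a, b = a + 1 := ⟨b - 1, by omega⟩
  have hlt : ¬ (a ≤ n ∧ m ≤ g a) := Nat.find_min hex (by show a < b; omega)
  have hga : g a < m := by
    by_contra h
    exact hlt ⟨by omega, by omega⟩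
  have hstep : g (a + 1) = g a + (n - a - 1) := by
    simp only [g]
    have h1 : (a + 1).choose 2 = a.choose 2 + a := by
      rw [Nat.choose_succ_succ' a 1, Nat.choose_one_right]; ring
    obtain ⟨k, hk⟩ : ∃ k, n = a + 1 + k := ⟨n - (a + 1), by omega⟩
    subst hk
    have h2 : a + 1 + k - (a + 1) = k := by omega
    have h3 : a + 1 + k - a = k + 1 := by omega
    have h4 : k + 1 - 1 = k := by omega
    rw [h1, h2, h3, h4]
    ring
  rw [ha] at hb
  refine ⟨a, m - g a, by omega, ?_, ?_⟩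
  · have := hb.2
    rw [hstep] at this
    omega
  · show m = g a + (m - g a)
    omega

end Pool.Agent.Helper554.LE
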