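import Mathlib
import Pool.Agent.Helper554.LE.Main

open Matrix Finset SimpleGraph

namespace Pool.Agent.Helper554.LE

/-- a graph containing a clique on `C`, `|C| = k+1`: trial projection -/
theorem clique_lower {n : ℕ} (hn : 0 < n) (G : SimpleGraph (Fin n)) [DecidableRel G.Adj] (C : Finset (Fin n))
    (k : ℕ) (hk : C.card = k + 1) (hC : ∀ u ∈ C, ∀ v ∈ C, u ≠ v → G.Adj u v) :
    2 * ((k : ℝ) * (k + 1) - 2 * (G.edgeFinset.card : ℝ) / n * k) ≤ lapEnergy G := by
  classical
  have hL : (G.lapMatrix ℝ).IsHermitian := SimpleGraph.isHermitian_lapMatrix (R := ℝ) _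
  have hnR : (n : ℝ) ≠ 0 := by positivity
  set x : Fin n → ℝ := fun u => if u ∈ C then 1 else 0 with hx
  set D : Matrix (Fin n) (Fin n) ℝ := Matrix.diagonal x with hD
  set P : Matrix (Fin n) (Fin n) ℝ := D - (1 / (k + 1 : ℝ)) • Matrix.vecMulVec x x with hP
  have hxx : ∀ u, x u * x u = x u := by
    intro u; simp only [hx]; split_ifs <;> norm_num
  have hk1 : (k + 1 : ℝ) ≠ 0 := by positivity
  have hdot : x ⬝ᵥ x = k + 1 := by
    rw [dotProduct, Finset.sum_congr rfl fun u _ => hxx u]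
    simp [hx, hk]
  have hPT : Pᵀ = P := by
    rw [hP, Matrix.transpose_sub, Matrix.transpose_smul, hD, Matrix.diagonal_transpose]
    congr 2
    ext i j; simp [Matrix.vecMulVec_apply, mul_comm]
  have hPP : P * P = P := by
    have h1 : D * D = D := by
      rw [hD, Matrix.diagonal_mul_diagonal]
      congr 1
      funext u
      exact hxx u
    have h2 : D * Matrix.vecMulVec x x = Matrix.vecMulVec x x := by
      rw [Matrix.mul_vecMulVec, hD]
      congr 1
      funext u
      rw [Matrix.mulVec_diagonal]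
      exact hxx u
    have h3 : Matrix.vecMulVec x x * D = Matrix.vecMulVec x x := by
      rw [Matrix.vecMulVec_mul, hD]
      congr 1
      funext u
      rw [Matrix.vecMul_diagonal]
      exact hxx u
    have h4 : Matrix.vecMulVec x x * Matrix.vecMulVec x x = (k + 1 : ℝ) • Matrix.vecMulVec x x := by
      rw [Matrix.vecMulVec_mul_vecMulVec, hdot]
      ext i j
      simp [Matrix.vecMulVec_apply, mul_comm, mul_left_comm]
    rw [hP, Matrix.sub_mul, Matrix.mul_sub, Matrix.mul_sub, h1, Matrix.mul_smul, h2,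
      Matrix.smul_mul, h3, Matrix.mul_smul, Matrix.smul_mul, h4, smul_smul, smul_smul]
    have : (1 / (k + 1 : ℝ)) * (1 / (k + 1 : ℝ) * (k + 1)) = 1 / (k + 1 : ℝ) := by
      field_simp
    rw [mul_assoc] at *
    rw [this]
    abel
  have htr : P.trace = k := by
    rw [hP, Matrix.trace_sub, Matrix.trace_smul, Matrix.trace_vecMulVec, hdot, hD,
      Matrix.trace_diagonal]
    have : ∑ u, x u = k + 1 := by simp [hx, hk]
    rw [this, smul_eq_mul]
    field_simp
    ring
  -- degrees
  have hdeg : ∀ u ∈ C, (k : ℝ) ≤ G.degree u := by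
    intro u hu
    have hsub : C.erase u ⊆ G.neighborFinset u := by
      intro v hv
      rw [Finset.mem_erase] at hv
      rw [SimpleGraph.mem_neighborFinset]
      exact hC u hu v hv.2 (Ne.symm hv.1)
    have h1 := Finset.card_le_card hsub
    rw [Finset.card_erase_of_mem hu, hk] at h1
    have h2 : k ≤ G.degree u := by
      rw [← SimpleGraph.card_neighborFinset_eq_degree]; omega
    exact_mod_cast h2
  have hLx : ∀ u ∈ C, ((G.lapMatrix ℝ) *ᵥ x) u = G.degree u - k := by
    intro u hu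
    rw [SimpleGraph.lapMatrix_mulVec_apply]
    have h1 : x u = 1 := by simp [hx, hu]
    have h2 : ∑ v ∈ G.neighborFinset u, x v = k := by
      have : ∑ v ∈ G.neighborFinset u, x v = ((G.neighborFinset u ∩ C).card : ℝ) := by
        simp [hx, Finset.sum_ite_mem]
      rw [this]
      have h3 : G.neighborFinset u ∩ C = C.erase u := by
        ext v
        simp only [Finset.mem_inter, SimpleGraph.mem_neighborFinset, Finset.mem_erase]
        constructor
        · rintro ⟨h, h'⟩
          exact ⟨fun e => G.loopless.irrefl u (by rw [e] at h; exact h), h'⟩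
        · rintro ⟨h, h'⟩
          exact ⟨hC u hu v h' (Ne.symm h), h'⟩
      rw [h3, Finset.card_erase_of_mem hu, hk]
      simp
    rw [h1, h2, mul_one]
  have hsymm : ((G.lapMatrix ℝ))ᵀ = G.lapMatrix ℝ := SimpleGraph.isSymm_lapMatrix _ _
  have hPL : (P * G.lapMatrix ℝ).trace = (∑ u ∈ C, (G.degree u : ℝ))
      - (1 / (k + 1 : ℝ)) * (∑ u ∈ C, ((G.degree u : ℝ) - k)) := by
    rw [hP, Matrix.sub_mul, Matrix.smul_mul, Matrix.vecMulVec_mul, Matrix.trace_sub,
      Matrix.trace_smul, Matrix.trace_vecMulVec, smul_eq_mul]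
    have e1 : (D * G.lapMatrix ℝ).trace = ∑ u ∈ C, (G.degree u : ℝ) := by
      rw [Matrix.trace]
      have : ∀ u, Matrix.diag (D * G.lapMatrix ℝ) u = if u ∈ C then (G.degree u : ℝ) else 0 := by
        intro u
        rw [Matrix.diag, hD, Matrix.diagonal_mul]
        have h2 : G.lapMatrix ℝ u u = (G.degree u : ℝ) := by
          simp [SimpleGraph.lapMatrix, SimpleGraph.degMatrix]
        rw [h2]
        simp [hx]
      rw [Finset.sum_congr rfl fun u _ => this u]
      simp
    have e2 : x ᵥ* G.lapMatrix ℝ = G.lapMatrix ℝ *ᵥ x := by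
      conv_rhs => rw [← hsymm]
      rw [Matrix.mulVec_transpose]
    rw [e1, e2, dotProduct]
    congr 2
    have : ∀ u, x u * (G.lapMatrix ℝ *ᵥ x) u = if u ∈ C then ((G.degree u : ℝ) - k) else 0 := by
      intro u
      by_cases hu : u ∈ C
      · rw [if_pos hu, hLx u hu]; simp [hx, hu]
      · rw [if_neg hu]; simp [hx, hu]
    rw [Finset.sum_congr rfl fun u _ => this u]
    simp
  have hge : (k : ℝ) * (k + 1) ≤ (P * G.lapMatrix ℝ).trace := by
    rw [hPL]
    set O : ℝ := ∑ u ∈ C, ((G.degree u : ℝ) - k) with hO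
    have hO0 : 0 ≤ O := Finset.sum_nonneg fun u hu => by linarith [hdeg u hu]
    have hS : ∑ u ∈ C, (G.degree u : ℝ) = O + k * (k + 1) := by
      rw [hO, Finset.sum_sub_distrib]
      simp [hk]
      ring
    rw [hS]
    have : 1 / (k + 1 : ℝ) * O ≤ 1 * O := by
      apply mul_le_mul_of_nonneg_right _ hO0
      rw [div_le_one (by positivity)]
      have : (0 : ℝ) ≤ k := Nat.cast_nonneg k
      linarith
    linarith
  rw [lapEnergy_eq _ hL]
  have h := energy_lower hL hPT hPP (2 * (G.edgeFinset.card : ℝ) / n)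
  rw [htr, trace_lap] at h
  have h2 : 2 * (G.edgeFinset.card : ℝ) / n * n = 2 * (G.edgeFinset.card : ℝ) := by
    field_simp
  rw [h2] at h
  linarith


/-- clique on `0,…,k`, all other vertices pendant at vertex `0` -/
def Pin (n k : ℕ) : SimpleGraph (Fin n) where
  Adj u v := u ≠ v ∧ (max u.1 v.1 ≤ k ∨ min u.1 v.1 = 0)
  symm := ⟨fun u v h => by
    rw [min_comm, max_comm]
    exact ⟨h.1.symm, h.2⟩⟩
  loopless := ⟨fun u h => h.1 rfl⟩

instance (n k : ℕ) : DecidableRel (Pin n k).Adj := fun u v =>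
  inferInstanceAs (Decidable (u ≠ v ∧ (max u.1 v.1 ≤ k ∨ min u.1 v.1 = 0)))

theorem pin_deg (k r : ℕ) (u : Fin (0 + 1 + k + r)) :
    ((Pin (0 + 1 + k + r) k).degree u : ℝ) = pw 0 k 0 (k + r) k 1 u.1 := by
  classical
  have h0 : ((Pin (0 + 1 + k + r) k).degree u : ℝ)
      = ∑ v, if (Pin (0 + 1 + k + r) k).Adj u v then (1 : ℝ) else 0 := by
    have hN : (Pin (0 + 1 + k + r) k).neighborFinset u
        = Finset.univ.filter fun v => (Pin (0 + 1 + k + r) k).Adj u v := by
      ext v; simp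
    rw [← SimpleGraph.card_neighborFinset_eq_degree, hN, Finset.card_filter]
    push_cast
    rfl
  rw [h0]
  rcases Nat.eq_zero_or_pos u.1 with hu | hu
  · rw [pw1 0 k hu]
    have h1 : ∀ v : Fin (0 + 1 + k + r), (if (Pin (0 + 1 + k + r) k).Adj u v then
        (1 : ℝ) else 0) = pw 0 k 0 0 1 1 v.1 := by
      intro v
      have hadj : (Pin (0 + 1 + k + r) k).Adj u v ↔ v.1 ≠ 0 := by
        constructor
        · rintro ⟨h1, h2⟩ h
          exact h1 (Fin.ext (by omega))
        · intro h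
          refine ⟨fun h' => ?_, ?_⟩
          · subst h'; omega
          · right; omega
      simp only [pw, hadj]
      split_ifs <;> first | rfl | omega
    rw [Finset.sum_congr rfl fun v _ => h1 v, blk_pw]
    push_cast
    ring
  · by_cases hu2 : u.1 ≤ k
    · rw [pw2 0 k hu (by omega)]
      have h1 : ∀ v : Fin (0 + 1 + k + r), (if (Pin (0 + 1 + k + r) k).Adj u v then
          (1 : ℝ) else 0) = pw 0 k 0 1 1 0 v.1 - if v = u then 1 else 0 := by
        intro v
        by_cases hv : v = u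
        · subst hv
          have hnot : ¬ (Pin (0 + 1 + k + r) k).Adj v v := (Pin (0 + 1 + k + r) k).loopless.irrefl v
          rw [if_neg hnot, if_pos rfl, pw2 0 k hu (by omega)]
          norm_num
        · have hadj : (Pin (0 + 1 + k + r) k).Adj u v ↔ v.1 ≤ k := by
            constructor
            · rintro ⟨h1, h2⟩
              omega
            · intro h
              exact ⟨fun h' => hv h'.symm, Or.inl (by omega)⟩
          rw [if_neg hv, sub_zero]
          simp only [pw, hadj]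
          split_ifs <;> first | rfl | omega
      rw [Finset.sum_congr rfl fun v _ => h1 v, Finset.sum_sub_distrib, blk_pw]
      simp
    · rw [pw3 0 k (by omega)]
      have h1 : ∀ v : Fin (0 + 1 + k + r), (if (Pin (0 + 1 + k + r) k).Adj u v then
          (1 : ℝ) else 0) = pw 0 k 0 1 0 0 v.1 := by
        intro v
        have hadj : (Pin (0 + 1 + k + r) k).Adj u v ↔ v.1 = 0 := by
          constructor
          · rintro ⟨h1, h2⟩
            omega
          · intro h
            refine ⟨fun h' => ?_, ?_⟩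
            · subst h'; omega
            · right; omega
        simp only [pw, hadj]
        split_ifs <;> first | rfl | omega
      rw [Finset.sum_congr rfl fun v _ => h1 v, blk_pw]
      push_cast
      ring

theorem pin_edges (k r : ℕ) :
    2 * (Pin (0 + 1 + k + r) k).edgeFinset.card = k * (k + 1) + 2 * r := by
  have h := SimpleGraph.sum_degrees_eq_twice_card_edges (Pin (0 + 1 + k + r) k)
  have h2 : ((∑ v, (Pin (0 + 1 + k + r) k).degree v : ℕ) : ℝ)
      = ((2 * (Pin (0 + 1 + k + r) k).edgeFinset.card : ℕ) : ℝ) := by rw [h]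
  push_cast at h2
  rw [Finset.sum_congr rfl fun v _ => pin_deg k r v, blk_pw] at h2
  have h3 : ((2 * (Pin (0 + 1 + k + r) k).edgeFinset.card : ℕ) : ℝ)
      = ((k * (k + 1) + 2 * r : ℕ) : ℝ) := by
    push_cast
    rw [← h2]
    push_cast
    ring
  exact_mod_cast h3

theorem card_of_edgeSet {n : ℕ} (G : SimpleGraph (Fin n)) [DecidableRel G.Adj]
    (F : Finset (Sym2 (Fin n))) (h : G.edgeSet = (F : Set (Sym2 (Fin n)))) :
    G.edgeFinset.card = F.card := by
  congr 1
  ext e
  rw [SimpleGraph.mem_edgeFinset, h]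
  simp

/-- a connected graph with exactly `m` edges containing a clique on `k+1` vertices -/
theorem exists_clique_graph (n k m : ℕ) (hk : k + 1 ≤ n)
    (h1 : k * (k + 1) + 2 * (n - k - 1) ≤ 2 * m) (h2 : m ≤ n.choose 2) :
    ∃ (G : SimpleGraph (Fin n)) (_ : DecidableRel G.Adj) (C : Finset (Fin n)), G.Connected ∧
      G.edgeFinset.card = m ∧ C.card = k + 1 ∧ ∀ u ∈ C, ∀ v ∈ C, u ≠ v → G.Adj u v := by
  classical
  obtain ⟨r, rfl⟩ : ∃ r, n = 0 + 1 + k + r := ⟨n - (k + 1), by omega⟩
  have hE := pin_edges k r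
  have hr : 0 + 1 + k + r - k - 1 = r := by omega
  rw [hr] at h1
  have hcard : (Pin (0 + 1 + k + r) k).edgeFinset.card ≤ m := by omega
  have htop : m ≤ ((⊤ : SimpleGraph (Fin (0 + 1 + k + r))).edgeFinset).card := by
    rw [SimpleGraph.card_edgeFinset_top_eq_card_choose_two]
    simpa using h2
  have hsub : (Pin (0 + 1 + k + r) k).edgeFinset
      ⊆ (⊤ : SimpleGraph (Fin (0 + 1 + k + r))).edgeFinset :=
    SimpleGraph.edgeFinset_mono le_top
  obtain ⟨F, hF1, hF2, hF3⟩ := Finset.exists_subsuperset_card_eq hsub hcard htop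
  let G : SimpleGraph (Fin (0 + 1 + k + r)) := SimpleGraph.fromEdgeSet (F : Set (Sym2 (Fin (0 + 1 + k + r))))
  have hGe : G.edgeSet = (F : Set (Sym2 (Fin (0 + 1 + k + r)))) := by
    simp only [G, SimpleGraph.edgeSet_fromEdgeSet]
    ext e
    simp only [Set.mem_sdiff, Finset.mem_coe]
    constructor
    · exact fun h => h.1
    · intro h
      refine ⟨h, ?_⟩
      have := hF2 h
      rw [SimpleGraph.mem_edgeFinset] at this
      exact SimpleGraph.not_isDiag_of_mem_edgeSet _ this
  have hle : Pin (0 + 1 + k + r) k ≤ G := by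
    rw [← SimpleGraph.edgeSet_subset_edgeSet, hGe]
    intro e he
    exact hF1 (SimpleGraph.mem_edgeFinset.mpr he)
  have hconn : (Pin (0 + 1 + k + r) k).Connected := by
    have : Nonempty (Fin (0 + 1 + k + r)) := ⟨⟨0, by omega⟩⟩
    have key : ∀ u : Fin (0 + 1 + k + r), (Pin (0 + 1 + k + r) k).Reachable ⟨0, by omega⟩ u := by
      intro u
      by_cases hu : (⟨0, by omega⟩ : Fin (0 + 1 + k + r)) = u
      · rw [hu]
      · exact SimpleGraph.Adj.reachable ⟨hu, Or.inr (by simp)⟩
    exact SimpleGraph.Connected.mk fun u v => (key u).symm.trans (key v)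
  refine ⟨G, Classical.decRel _, Finset.univ.filter (fun v => v.1 ≤ k), hconn.mono hle, ?_, ?_, ?_⟩
  · rw [← hF3]
    exact @card_of_edgeSet _ G (Classical.decRel _) F hGe
  · have h5 : Finset.univ.filter (fun v : Fin (0 + 1 + k + r) => v.1 ≤ k)
        = (Finset.univ : Finset (Fin (k + 1))).map
            (Fin.castLEEmb (by omega : k + 1 ≤ 0 + 1 + k + r)) := by
      ext v
      simp only [Finset.mem_filter, Finset.mem_univ, true_and, Finset.mem_map]
      constructor
      · intro h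
        exact ⟨⟨v.1, by omega⟩, Fin.ext rfl⟩
      · rintro ⟨w, rfl⟩
        have := w.2
        simp only [Fin.castLEEmb_apply, Fin.val_castLE]
        omega
    rw [h5, Finset.card_map]
    simp
  · intro u hu v hv huv
    simp only [Finset.mem_filter, Finset.mem_univ, true_and] at hu hv
    exact hle ⟨huv, Or.inl (by omega)⟩


theorem all_upper (hB : BrouwerStatement) (n m : ℕ) (hn : 0 < n) {e : ℝ} (he : e ∈ Energies n m) :
    ∃ s ≤ n, e ≤ 2 * Ub n m s := by
  obtain ⟨G, _, -, hG, rfl⟩ := he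
  obtain ⟨s, S, hs, h1, h2, h3, h4⟩ := upper_gen hB hn G
  refine ⟨s, hs, ?_⟩
  rw [h4, Ub]
  rw [hG] at h2 h3 ⊢
  have : S ≤ min (min ((s : ℝ) * n) (m + s * (s + 1) / 2)) (2 * m) :=
    le_min (le_min h1 h2) h3
  linarith

/-- the best clique size -/
theorem exists_k (n m : ℕ) (hn : 2 ≤ n) (h1 : n ≤ m + 1) (h2 : m ≤ n.choose 2) :
    ∃ k, 1 ≤ k ∧ k + 1 ≤ n ∧ k * (k + 1) + 2 * (n - k - 1) ≤ 2 * m ∧
      2 * m ≤ k * (k + 1) + 2 * (n - 2) := by
  classical
  have hmn : 2 * m ≤ n * (n - 1) := by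
    rw [Nat.choose_two_right] at h2
    have := Nat.div_mul_le_self (n * (n - 1)) 2
    omega
  let p : ℕ → Prop := fun k => k + 1 ≤ n ∧ k * (k + 1) + 2 * (n - k - 1) ≤ 2 * m
  have hp1 : p 1 := ⟨hn, by omega⟩
  have hb : ∀ k, p k → k ≤ n := fun k hk => by have := hk.1; omega
  obtain ⟨K, hK1, hK, hmax⟩ : ∃ K, 1 ≤ K ∧ p K ∧ (K + 1 ≤ n → ¬ p (K + 1)) :=
    ⟨Nat.findGreatest p n, Nat.le_findGreatest (by omega) hp1,
      Nat.findGreatest_spec (P := p) (m := 1) (by omega) hp1,
      fun h => Nat.findGreatest_is_greatest (P := p) (n := n) (by omega) h⟩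
  have hK2 : K + 1 ≤ n := hK.1
  have hK3 : K * (K + 1) + 2 * (n - K - 1) ≤ 2 * m := hK.2
  refine ⟨K, hK1, hK2, hK3, ?_⟩
  obtain ⟨q, hq⟩ := Nat.even_mul_succ_self K
  by_cases hKn : K + 2 ≤ n
  · have hnot : ¬ p (K + 1) := hmax (by omega)
    have h3 : 2 * m < (K + 1) * (K + 1 + 1) + 2 * (n - (K + 1) - 1) := by
      by_contra h
      exact hnot ⟨by omega, by omega⟩
    have h4 : (K + 1) * (K + 1 + 1) = K * (K + 1) + 2 * (K + 1) := by ring
    omega
  · have hKe : n = K + 1 := by omega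
    have h5 : n * (n - 1) = K * (K + 1) := by
      rw [hKe, Nat.add_sub_cancel]; ring
    omega

theorem all_lower (n m : ℕ) (hn : 2 ≤ n) (h1 : n ≤ m + 1) (h2 : m ≤ n.choose 2) (s : ℕ)
    (_hs : s ≤ n) : ∃ e ∈ Energies n m, 2 * Ub n m s - 4 * (n - 2) ≤ e := by
  obtain ⟨a, j, hj, hjn, hm⟩ := decomp n m (by omega) h2
  obtain ⟨k, hk1, hkn, hk2, hk3⟩ := exists_k n m hn h1 h2
  obtain ⟨r, hr⟩ : ∃ r, n = a + 1 + j + r := ⟨n - (a + 1 + j), by omega⟩
  have hnR : (2 : ℝ) ≤ n := by exact_mod_cast hn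
  have hn0 : (n : ℝ) ≠ 0 := by positivity
  have hmR : (m : ℝ) = a * (a - 1) / 2 + a * (((a + 1 + j + r : ℕ) : ℝ) - a) + j := by
    rw [hm, hr]
    push_cast [Nat.cast_choose_two]
    have : ((a + 1 + j + r - a : ℕ) : ℝ) = ((a + 1 + j + r : ℕ) : ℝ) - a := by
      rw [Nat.cast_sub (by omega)]
    rw [this]
    push_cast
    ring
  have ha0 : a = 0 → r = 0 := by
    intro ha
    subst ha
    simp at hm
    omega
  have hmem : lapEnergy (Gr (a + 1 + j + r) a j) ∈ Energies (a + 1 + j + r) m := by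
    refine ⟨Gr (a + 1 + j + r) a j, inferInstance, gr_connected a j r hj ha0, ?_, rfl⟩
    have := (gr_lower a j r hj m hmR).1
    exact_mod_cast this
  have hl1 := gr_lower' a j r hj m hmR
  have hl2 := (gr_lower a j r hj m hmR).2
  rw [← hr] at hmem hl1 hl2
  obtain ⟨G, _, C, hconn, hE, hCc, hC⟩ := exists_clique_graph n k m hkn hk2 h2
  have hl3 := clique_lower (by omega) G C k hCc hC
  rw [hE] at hl3
  have hmem3 : lapEnergy G ∈ Energies n m := ⟨G, _, hconn, hE, rfl⟩
  set c : ℝ := 2 * (m : ℝ) / n with hc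
  have hcn : (n : ℝ) * c = 2 * m := by rw [hc]; field_simp
  have hmleR : 2 * (m : ℝ) ≤ n * (n - 1) := by
    have h3 : (m : ℝ) ≤ ((n.choose 2 : ℕ) : ℝ) := by exact_mod_cast h2
    rw [Nat.cast_choose_two] at h3
    linarith
  have hcle : c ≤ n - 1 := by
    have : (n : ℝ) * c ≤ n * (n - 1) := by rw [hcn]; linarith
    exact le_of_mul_le_mul_left this (by linarith)
  have hc0 : 0 ≤ c := by rw [hc]; positivity
  have hk3R : 2 * (m : ℝ) ≤ k * (k + 1) + 2 * (n - 2) := by
    have : ((2 * m : ℕ) : ℝ) ≤ ((k * (k + 1) + 2 * (n - 2) : ℕ) : ℝ) := by exact_mod_cast hk3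
    push_cast [Nat.cast_sub hn] at this
    linarith
  have hU : ∀ x : ℝ, x = Ub n m s → x ≤ s * n - c * s ∧ x ≤ m + s * (s + 1) / 2 - c * s ∧
      x ≤ 2 * m - c * s := by
    rintro x rfl
    rw [Ub, ← hc]
    refine ⟨?_, ?_, ?_⟩
    · have := min_le_left (min ((s : ℝ) * n) (m + s * (s + 1) / 2)) (2 * (m : ℝ))
      have := min_le_left ((s : ℝ) * n) ((m : ℝ) + s * (s + 1) / 2)
      linarith
    · have := min_le_left (min ((s : ℝ) * n) (m + s * (s + 1) / 2)) (2 * (m : ℝ))
      have := min_le_right ((s : ℝ) * n) ((m : ℝ) + s * (s + 1) / 2)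
      linarith
    · have := min_le_right (min ((s : ℝ) * n) (m + s * (s + 1) / 2)) (2 * (m : ℝ))
      linarith
  obtain ⟨u1, u2, u3⟩ := hU _ rfl
  rcases Nat.lt_or_ge a s with has | has
  · rcases Nat.lt_or_ge k s with hks | hks
    · -- s > k
      refine ⟨_, hmem3, ?_⟩
      have hksR : (k : ℝ) ≤ s := by exact_mod_cast hks.le
      have h6 : c * k ≤ c * s := mul_le_mul_of_nonneg_left hksR hc0
      linarith
    · -- a + 1 ≤ s ≤ k : convexity
      have hasR : (a : ℝ) + 1 ≤ s := by exact_mod_cast has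
      have hksR : (s : ℝ) ≤ k := by exact_mod_cast hks
      by_cases hconv : (s : ℝ) + a + 2 ≤ 2 * c
      · -- f(s) ≤ f(a+1)
        refine ⟨_, hmem, ?_⟩
        have h7 : 0 ≤ (s - a - 1 : ℝ) * (2 * c - s - a - 2) :=
          mul_nonneg (by linarith) (by linarith)
        have h8 : (m : ℝ) + s * (s + 1) / 2 - c * s ≤ m + (a + 1) * (a + 2) / 2 - c * (a + 1) := by
          linarith [h7, show (s - a - 1 : ℝ) * (2 * c - s - a - 2) = 2 * ((m + (a + 1) * (a + 2) / 2 - c * (a + 1)) - (m + s * (s + 1) / 2 - c * s)) by ring]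
        have h9 : (m : ℝ) + (a + 1) * (a + 2) / 2 - c * (a + 1) = a * (n - c) + (a + 1 + j - c) := by
          rw [← hr] at hmR
          rw [hmR]; ring
        linarith
      · rw [not_le] at hconv
        refine ⟨_, hmem3, ?_⟩
        have h7 : 0 ≤ (k - s : ℝ) * (k + s + 1 - 2 * c) :=
          mul_nonneg (by linarith) (by linarith)
        have h8 : (m : ℝ) + s * (s + 1) / 2 - c * s ≤ m + k * (k + 1) / 2 - c * k := by
          linarith [h7, show (k - s : ℝ) * (k + s + 1 - 2 * c) = 2 * ((m + k * (k + 1) / 2 - c * k) - (m + s * (s + 1) / 2 - c * s)) by ring]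
        linarith
  · -- s ≤ a
    refine ⟨_, hmem, ?_⟩
    have hasR : (s : ℝ) ≤ a := by exact_mod_cast has
    have h6 : (s : ℝ) * (n - c) ≤ a * (n - c) := mul_le_mul_of_nonneg_right hasR (by linarith)
    linarith

theorem energies_finite (n m : ℕ) : (Energies n m).Finite := by
  classical
  refine (Set.finite_range (fun G : SimpleGraph (Fin n) =>
    @lapEnergy n G (Classical.decRel _))).subset ?_
  rintro e ⟨G, inst, -, -, rfl⟩
  refine ⟨G, ?_⟩
  have : inst = Classical.decRel _ := Subsingleton.elim _ _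
  subst this
  rfl

end Pool.Agent.Helper554.LE
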